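import Pool.Agent.Lib.MP_e6550d_al.Bridge

open Pool.Agent.Lib.MP_e6550d_al

namespace Pool.Agent.Results.MP_e6550d_al.Full

universe u v w

theorem result (P : SemigroupPresentation.{u, v}) (x : Vertex P) (G : Type w) [Group G]
    (hG : Nonempty (G ≃* DiagramGroup P x)) (h : IsProperlyRelHyperbolic G) :
    ∃ A B : Subgroup G, A ≠ ⊥ ∧ B ≠ ⊥ ∧ Nonempty (G ≃* Monoid.Coprod A B) :=
  hG.elim fun e => main x e h

end Pool.Agent.Results.MP_e6550d_al.Full
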