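import Pool.Agent.Lib.MP_e6550d_al.KE

open Pool.Agent.Lib.MP_e6550d_al

namespace Pool.Agent.Results.MP_e6550d_al.Structure

universe u v w

theorem result (P : SemigroupPresentation.{u, v}) (x : Vertex P) (G : Type w) [Group G]
    (hG : Nonempty (G ≃* DiagramGroup P x)) :
    ∃ (J : Type u) (A : J → Subgroup G) (F : Subgroup G), IsFreeGroup F ∧ Function.Bijective
        (Monoid.Coprod.lift (Monoid.CoprodI.lift fun j => (A j).subtype) F.subtype) ∧
      ∀ j, (∃ f : Multiplicative (ℤ × ℤ) →* A j, Function.Injective f) ∧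
        (∀ (H : Subgroup (A j)) (n : ℕ), HeightLE H n → H.index = 0 → IsFreeGroup H) ∧
        ∀ (n : ℕ) (H : Fin n → Subgroup G), IsRelHyperbolic H →
          ∃ i y, ∀ g ∈ A j, y⁻¹ * g * y ∈ H i :=
  hG.elim fun e => structure_thm x e

end Pool.Agent.Results.MP_e6550d_al.Structure
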